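import Mathlib
import Pool.Agent.Helper96.GB.HenThm

/-!
# The basins of generic automorphisms of `ℂ²` are nowhere bounded by `C^1` hypersurfaces

Definitions: `Pool/Agent/Helper96/GB/Defs.lean`, `Pool/Agent/Helper96/GB/Frames2.lean`. A map `F` is
`Wild` if it is not polynomial, if it has attracting fixed points of arbitrarily large norm, and if
the boundary of the basin of an attracting fixed point `p` is not empty, is not of class `C^1` at any
of its points, and is the same for all attracting fixed points.

(A) The space `Aut2` of all holomorphic automorphisms of `ℂ²`, with uniform convergence on compact
sets of the automorphisms and of their inverses, is a Baire space, and all automorphisms outside a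
meagre set are wild.

(B) The space `Ent` of all entire functions of one variable is a Baire space, and for every complex
`δ` with `0 < |δ| < 1` and all `f` outside a meagre set the (transcendental) Hénon map
`(z, w) ↦ (f z - δ w, z)` is wild.

Sketch of the proof. A ball with radius `4 r` is a trap if an iterate `F ^ n` maps it into the
concentric ball with radius `r`; this is an open condition. By the Schwarz lemma a trap contains
exactly one fixed point of `F ^ n`, which attracts it, and linear functionals are unbounded on the
set of points which enter the trap; near a boundary point of this set the iterates of `F` are
unbounded. Let `U` be a neighbourhood of such a boundary point, let `T` be another trap. Let `y` be a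
point of `U` and `k` the first time at which, say, the first coordinate of `F ^ k y` is large, let
`x` enter `T` and have a large first coordinate, for the last time. In (A) there are small
perturbations `G = S' F S` of `F`, with two shears `S` and `S'` along different directions, which are
almost trivial on large sets and interpolate exactly: `G ^ (k + 2) y = F x`, and
`G ^ j (F x) = F ^ j (F x)` until the trap is reached. In (B) the same is achieved with a small
perturbation of `f` which takes two prescribed values and vanishes at the first coordinates of all
other points of the two orbits. So for generic `F` the boundary of every basin is contained in the
closure of every other basin. Attracting fixed points far away are created in the same way (in (A)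
with overshears). Three disjoint open sets with a common boundary which is of class `C^1` at one
point do not exist.
-/

set_option autoImplicit false

namespace Pool.Agent.Results.MP_cd5a48_an.GenericBasins

open Filter Pool.Agent.Helper96.GB

theorem result : (BaireSpace Aut2 ∧ ∀ᶠ A in residual Aut2, Wild A.F) ∧
    BaireSpace Ent ∧ ∀ δ : ℂ, δ ≠ 0 → ‖δ‖ < 1 → ∀ᶠ f in residual Ent, Wild (hmap δ f.1) :=
  ⟨thm, henThm⟩

end Pool.Agent.Results.MP_cd5a48_an.GenericBasins
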