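import Mathlib
import Pool.Agent.Helper96.GB.Small

/-!
# Basins of automorphisms of `ℂ²` close to maps of one variable

Definitions: `Pool/Agent/Helper96/GB/Defs.lean` (`Aut2`, `basin`, `IsAttr`, `IsC1At`, `IsPoly`).

(1) The negated form of the question for the Hénon maps `(z, w) ↦ (a z exp z - δ w, z)`,
`0 < |a| < 1`, with small Jacobian `δ ≠ 0`: they are not polynomial, `(0, 0)` is the only attracting
fixed point, and its basin is not bounded by a `C^1` hypersurface.

(2) Let `f` be an entire function with an attracting fixed point `z₀` and with a repelling periodic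
point `x₀` of period `M + 1` in the closure of the basin of `z₀`, whose multiplier is not a positive
real number. Then every automorphism `F` of `ℂ²` which is uniformly close to `(z, w) ↦ (f z, z)` on
a large ball has exactly one fixed point `p` near `(z₀, z₀)`; it is attracting, and its basin is not
bounded by a `C^1` hypersurface.

Sketch of the proof. `F` has a saddle point `q` near `(x₀, f^M x₀)`; the map `G = F ^ (M + 1)` is
close to `(z, w) ↦ (g z, h z)`. Graphs over discs with centre `q` grow under `G` (graph transform),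
so there are points near `q` which `G ^ n` takes to points `(z₁, w)`, where `z₁` is a point of the
basin of `z₀` close to `x₀`; so `q` is in the boundary of the basin of `p`. If this basin had a
tangent half space at `q`, then the real covector which defines it would be an eigenvector of the
derivative of `G` with an eigenvalue `κ ≥ 0`. Either `κ` is close to the multiplier of `x₀`, which
is impossible, or the stable direction is transverse to the tangent space; but the points of the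
stable set of `q` are not in the basin.
-/

set_option autoImplicit false

namespace Pool.Agent.Results.MP_cd5a48_an.NearOneVariableMaps

open Filter Topology Pool.Agent.Helper96.GB

theorem result :
    -- (1) Hénon maps with small Jacobian
    (∀ a : ℂ, a ≠ 0 → ‖a‖ < 1 → ∃ ε : ℝ, 0 < ε ∧ ∀ δ : ℂ, δ ≠ 0 → ‖δ‖ < ε →
      ∀ F : E → E, (∀ z w : ℂ, F (z, w) = (a * z * Complex.exp z - δ * w, z)) →
        ¬ IsPoly F ∧ (∀ p : E, IsAttr F p ↔ p = 0) ∧ ∃ q ∈ frontier (basin F 0),
          ¬ IsC1At (basin F 0) q) ∧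
    -- (2) automorphisms close to `(z, w) ↦ (f z, z)`
    ∀ (f : ℂ → ℂ) (z₀ x₀ : ℂ) (M : ℕ), Differentiable ℂ f → f z₀ = z₀ → ‖deriv f z₀‖ < 1 →
      f^[M + 1] x₀ = x₀ → 1 < ‖deriv f^[M + 1] x₀‖ →
      (∀ κ : ℝ, 0 < κ → deriv f^[M + 1] x₀ ≠ κ) →
      x₀ ∈ closure {z | Tendsto (fun n => f^[n] z) atTop (𝓝 z₀)} →
      ∀ σ : ℝ, 0 < σ → ∃ ρ R ε : ℝ, 0 < ρ ∧ ρ < σ ∧ 0 < ε ∧
        ∀ A : Aut2, (∀ x, ‖x‖ ≤ R → ‖A.F x - (f x.1, x.1)‖ < ε) →
          ∃ p : E, ‖p - (z₀, z₀)‖ < ρ ∧ IsAttr A.F p ∧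
            (∀ p', ‖p' - (z₀, z₀)‖ < ρ → A.F p' = p' → p' = p) ∧
            ∃ q ∈ frontier (basin A.F p), ¬ IsC1At (basin A.F p) q := by
  refine ⟨fun a ha0 ha => ?_, fun f z₀ x₀ M hf h0 h1 hx h2 h3 h4 σ hσ => ?_⟩
  · obtain ⟨ε₁, hε₁, h1⟩ := fam_thm a ha0 ha
    obtain ⟨ε₂, hε₂, h2⟩ := only_attr_small a ha0 ha
    refine ⟨min ε₁ ε₂, lt_min hε₁ hε₂, fun δ hδ0 hδ F hF => ?_⟩
    have hFe : F = hmap δ (fam a) := by
      funext x
      obtain ⟨z, w⟩ := x
      rw [hF, hmap, fam]
    rw [hFe]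
    obtain ⟨k1, k2, k3⟩ := h1 δ hδ0 (lt_of_lt_of_le hδ (min_le_left _ _))
    exact ⟨k1, fun p => ⟨h2 δ (lt_of_lt_of_le hδ (min_le_right _ _)) p, fun hp => hp ▸ k2⟩, k3⟩
  · obtain ⟨ρ, R, ε, k1, k2, k3, k4⟩ := deg_main f hf z₀ h0 h1 x₀ M hx h2 h3 h4 σ hσ
    refine ⟨ρ, R, ε, k1, k2, k3, fun A hA => ?_⟩
    obtain ⟨p, q, l1, l2, l3, -, -, l4, l5⟩ := k4 A hA
    exact ⟨p, l1, l2, l3, q, l4, l5⟩

end Pool.Agent.Results.MP_cd5a48_an.NearOneVariableMaps
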