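import Mathlib
import Pool.Agent.Helper96.GB.Tang

/-!
# The pairs `(F, p)` for which the basin has a `C^1` boundary are nowhere dense

Definitions: `Pool/Agent/Helper96/GB/Defs.lean` (`Aut2`, `basin`, `IsAttr`, `IsC1At`) and below.

For all `M` there is an open and dense set of pairs `(F, p)` such that the boundary of the basin of
`p` contains a repelling fixed point `q` of `F` with `‖q‖ > M`, at which the basin has no tangent
half space. In particular the basin is not bounded by a `C^1` hypersurface near `q`.

Sketch of the proof. Let `F` and `p` be given. Far away, a small perturbation of `F`, obtained by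
composition with two overshears with prescribed jets, creates a fixed point `q` with derivative
`-64`. The inverse of the new automorphism has a trap at `q`; linear functionals are unbounded on
the points attracted to `q` by the inverse, so a second small perturbation creates an orbit which
begins near `q` and ends near `p`. All this is stable under small perturbations, since it is
expressed by finitely many conditions on traps and by Cauchy estimates for the derivative at `q`. If
an orbit leads from the repelling fixed point `q` to `p`, then `q` is in the boundary of the basin.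
The basin is invariant under `F`, and near `q` the map `F` takes each ray `q + s v` almost to the
opposite ray.
-/

set_option autoImplicit false

namespace Pool.Agent.Results.MP_cd5a48_an.RobustIrregularity

open Pool.Agent.Helper96.GB Topology

/-- The space of the pairs of a holomorphic automorphism of `ℂ²` and one of its attracting fixed
points. -/
abbrev Pairs := {z : Aut2 × E // IsAttr z.1.F z.2}

/-- The set `B` has a tangent half space at `q`. -/
def HasTangent (B : Set E) (q : E) : Prop :=
  ∃ ℓ : E →L[ℝ] ℝ, ℓ ≠ 0 ∧ ∀ ε : ℝ, 0 < ε → ∀ᶠ y in 𝓝 q,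
    (ℓ (y - q) < -(ε * ‖y - q‖) → y ∈ B) ∧ (ε * ‖y - q‖ < ℓ (y - q) → y ∉ B)

theorem result :
    -- (1) the examples are nowhere dense
    IsNowhereDense {z : Pairs | ∀ x ∈ frontier (basin z.1.1.F z.1.2),
      IsC1At (basin z.1.1.F z.1.2) x} ∧
    -- (2) repelling fixed points far away without a tangent half space
    ∀ M : ℝ, Dense (interior {z : Pairs | ∃ q, M < ‖q‖ ∧ IsAttr z.1.1.F.symm q ∧
      q ∈ frontier (basin z.1.1.F z.1.2) ∧ ¬ HasTangent (basin z.1.1.F z.1.2) q}) := by
  have hd : ∀ M : ℝ, Dense (interior {z : Pairs | ∃ q, M < ‖q‖ ∧ IsAttr z.1.1.F.symm q ∧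
      q ∈ frontier (basin z.1.1.F z.1.2) ∧ ¬ HasTangent (basin z.1.1.F z.1.2) q}) :=
    dense_tangent
  refine ⟨?_, hd⟩
  have h := hd 0
  set T := {z : Pairs | ∃ q, (0 : ℝ) < ‖q‖ ∧ IsAttr z.1.1.F.symm q ∧
      q ∈ frontier (basin z.1.1.F z.1.2) ∧ ¬ HasTangent (basin z.1.1.F z.1.2) q} with hT
  have hsub : closure {z : Pairs | ∀ x ∈ frontier (basin z.1.1.F z.1.2),
      IsC1At (basin z.1.1.F z.1.2) x} ⊆ (interior T)ᶜ := by
    refine closure_minimal ?_ isOpen_interior.isClosed_compl
    intro z hz hzT
    obtain ⟨q, -, -, hq, hC⟩ := interior_subset hzT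
    exact hC (half_of_c1 _ _ hq (hz q hq))
  rw [IsNowhereDense]
  refine Set.subset_eq_empty (interior_mono hsub) ?_
  rw [interior_compl, h.closure_eq, Set.compl_univ]

end Pool.Agent.Results.MP_cd5a48_an.RobustIrregularity
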