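import Mathlib
import Pool.Agent.Helper96.GB.Only

/-!
# An explicit family, and the unstable slices of basins with `C^1` boundary

Definitions: `Pool/Agent/Helper96/GB/Defs.lean` (`Aut2`, `basin`, `IsAttr`, `IsC1At`, `IsPoly`).

(1) The negated form of the question for the maps `(z, w) ↦ (a z exp z + D w, z)`, `0 < D < 1`,
`0 < e |a| < 1 - D`, whose Jacobian is `-D`: they are not polynomial, `(0, 0)` is the only
attracting fixed point, and the boundary of its basin is not a `C^1` hypersurface near some fixed
points of arbitrarily large norm.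

(2) Let `F` be an automorphism of `ℂ²` with an attracting fixed point `p`, and let `q` be a point of
the boundary of the basin of `p` with `F^n q = q`, near which the basin is bounded by a `C^1`
hypersurface. Then the transpose of `D F^n q` has an eigenvector `l` with a real eigenvalue `c ≥ 1`.
If `c > 1`, `m ≠ c` and `|m| < c ^ 2`, where `m` is the other eigenvalue (for example, if `q` is a
saddle point), then there is an injective entire curve `Ψ` with `Ψ 0 = q`, `l (Ψ' 0) = 1`,
`F^n (Ψ ζ) = Ψ (c ζ)`, and on this whole curve the basin is exactly the half plane `Re ζ < 0`, the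
boundary of the basin is exactly the line `Re ζ = 0`, and `Ψ ζ` tends to `p` as `ζ` tends to `∞` in
the sectors of this half plane.

Sketch of the proof. (2) The real covector `ℓ` of the tangent space is an eigenvector of the
transpose of the derivative, because the tangent half space is unique; the eigenvalue is at least
one, because otherwise the points of the strong stable curve of `q` in the basin would tend both to
`p` and to `q`. `ker ℓ` is invariant under `D F^n q`; this gives the complex covector. The curve `Ψ`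
is the limit of `F^(n k) (q + ζ c^(-k) e)`; for `Re ζ < 0` the point `Ψ (c^(-k) ζ)` is in the basin
for large `k`, because the half space is tangent to the basin. (1) With `t` one of the solutions of
`a exp t = 1 - D`, `(t, t)` is a fixed point; the points of a backward orbit near `t` are in a
domain which the map takes into a bidisc in the basin, so `(t, t)` is in the boundary of the basin;
by (2) `f' t = (1 - D) (1 + t)` would be `c - D / c`, but it is not real.
-/

set_option autoImplicit false

namespace Pool.Agent.Results.MP_cd5a48_an.UnstableSlices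

open Filter Topology Pool.Agent.Helper96.GB

theorem result :
    -- (1) an explicit family
    (∀ (a : ℂ) (D : ℝ), a ≠ 0 → 0 < D → Real.exp 1 * ‖a‖ + D < 1 →
      ∀ F : E → E, (∀ z w : ℂ, F (z, w) = (a * z * Complex.exp z + D * w, z)) →
        ¬ IsPoly F ∧ (∀ p : E, IsAttr F p ↔ p = 0) ∧
          ∀ K : ℝ, ∃ q ∈ frontier (basin F 0), K < ‖q‖ ∧ F q = q ∧ ¬ IsC1At (basin F 0) q) ∧
    -- (2) all automorphisms
    ∀ (A : Aut2) (p q : E) (n : ℕ), IsAttr A.F p → 0 < n → A.F^[n] q = q →
      q ∈ frontier (basin A.F p) → IsC1At (basin A.F p) q →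
        ∃ (c : ℝ) (m : ℂ) (l : E →L[ℂ] ℂ), l ≠ 0 ∧ 1 ≤ c ∧
          (∀ v, l (fderiv ℂ A.F^[n] q v) = c * l v) ∧
          (∀ u, l u = 0 → fderiv ℂ A.F^[n] q u = m • u) ∧
          (1 < c → m ≠ c → ‖m‖ < c ^ 2 → ∃ Ψ : ℂ → E, Differentiable ℂ Ψ ∧
            Function.Injective Ψ ∧ Ψ 0 = q ∧ l (deriv Ψ 0) = 1 ∧
            (∀ ζ, A.F^[n] (Ψ ζ) = Ψ (c * ζ)) ∧
            (∀ ζ, (Ψ ζ ∈ basin A.F p ↔ ζ.re < 0) ∧
              (Ψ ζ ∈ frontier (basin A.F p) ↔ ζ.re = 0)) ∧
            ∀ ε : ℝ, 0 < ε →
              Tendsto Ψ (cocompact ℂ ⊓ 𝓟 {ζ | ζ.re ≤ -(ε * ‖ζ‖)}) (𝓝 p)) := by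
  refine ⟨fun a D ha hD h F hF => ?_, fun A p q n hp hn hq hqf hC => ?_⟩
  · have hFe : F = hmap (-D) (fam a) := by
      funext x
      obtain ⟨z, w⟩ := x
      rw [hF, hmap, fam]
      simp
    rw [hFe]
    obtain ⟨h1, h2, h3⟩ := fam_neg a ha D hD h
    exact ⟨h1, fun p => ⟨only_attr a ha D hD h p, fun hp => hp ▸ h2⟩, h3⟩
  · obtain ⟨ℓ, hℓ, hH⟩ := half_of_c1 _ _ hqf hC
    obtain ⟨c, m, l, h1, h2, h3, h4, h5⟩ := slices A p q n hn hp hq hqf ℓ hℓ hH
    refine ⟨c, m, l, fun h => hℓ ?_, h2, h3, h4, h5⟩
    refine ContinuousLinearMap.ext fun x => ?_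
    rw [h1, h]
    simp

end Pool.Agent.Results.MP_cd5a48_an.UnstableSlices
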